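import Pool.Agent.H99.UC.Sm4

/-! # [H99 VX PB] Quantities bounded by a power of `B` -/

namespace Pool.Agent.H99.VX

/-- bounded by a fixed power of `B` for all `B ≥ 2` -/
def PB (X : ℕ → ℝ) : Prop := ∃ k : ℕ, ∀ B : ℕ, 2 ≤ B → X B ≤ (B : ℝ) ^ k

theorem pb_mono {X Y : ℕ → ℝ} (h : PB Y) (hXY : ∀ B : ℕ, 2 ≤ B → X B ≤ Y B) : PB X := by
  obtain ⟨k, hk⟩ := h
  exact ⟨k, fun B hB => (hXY B hB).trans (hk B hB)⟩

theorem pb_const (c : ℝ) : PB fun _ => c := by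
  obtain ⟨k, hk⟩ := pow_unbounded_of_one_lt c (by norm_num : (1 : ℝ) < 2)
  refine ⟨k, fun B hB => hk.le.trans ?_⟩
  refine pow_le_pow_left₀ (by norm_num) ?_ k
  exact_mod_cast hB

theorem pb_pow (κ : ℕ) : PB fun B => (B : ℝ) ^ κ := ⟨κ, fun _ _ => le_rfl⟩

theorem pb_id : PB fun B => (B : ℝ) := ⟨1, fun _ _ => by simp⟩

theorem pb_add {X Y : ℕ → ℝ} (hX : PB X) (hY : PB Y) : PB fun B => X B + Y B := by
  obtain ⟨k, hk⟩ := hX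
  obtain ⟨l, hl⟩ := hY
  refine ⟨max k l + 1, fun B hB => ?_⟩
  have hB1 : (1 : ℝ) ≤ B := by
    have : 1 ≤ B := by omega
    exact_mod_cast this
  have hB2 : (2 : ℝ) ≤ B := by exact_mod_cast hB
  have h1 : (B : ℝ) ^ k ≤ (B : ℝ) ^ max k l := pow_le_pow_right₀ hB1 (le_max_left _ _)
  have h2 : (B : ℝ) ^ l ≤ (B : ℝ) ^ max k l := pow_le_pow_right₀ hB1 (le_max_right _ _)
  have h3 : 0 ≤ (B : ℝ) ^ max k l := by positivity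
  have h4 := hk B hB
  have h5 := hl B hB
  have h6 := mul_le_mul_of_nonneg_left hB2 h3
  rw [pow_succ]
  linarith

theorem pb_mul {X Y : ℕ → ℝ} (hX : PB X) (hY : PB Y) (h0 : ∀ B : ℕ, 2 ≤ B → 0 ≤ Y B) : PB fun B => X B * Y B := by
  obtain ⟨k, hk⟩ := hX
  obtain ⟨l, hl⟩ := hY
  refine ⟨k + l, fun B hB => ?_⟩
  rw [pow_add]
  exact mul_le_mul (hk B hB) (hl B hB) (h0 B hB) (by positivity)

theorem pb_npow {X : ℕ → ℝ} (hX : PB X) (h0 : ∀ B : ℕ, 2 ≤ B → 0 ≤ X B) (m : ℕ) : PB fun B => X B ^ m := by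
  obtain ⟨k, hk⟩ := hX
  refine ⟨k * m, fun B hB => ?_⟩
  rw [pow_mul]
  exact pow_le_pow_left₀ (h0 B hB) (hk B hB) m

/-- nonnegative and bounded by a power of `B` -/
def PN (X : ℕ → ℝ) : Prop := PB X ∧ ∀ B : ℕ, 2 ≤ B → 0 ≤ X B

theorem pn_const {c : ℝ} (hc : 0 ≤ c) : PN fun _ => c := ⟨pb_const c, fun _ _ => hc⟩

theorem pn_pow (κ : ℕ) : PN fun B => (B : ℝ) ^ κ := ⟨pb_pow κ, fun _ _ => by positivity⟩

theorem pn_id : PN fun B => (B : ℝ) := ⟨pb_id, fun _ _ => by positivity⟩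

theorem pn_add {X Y : ℕ → ℝ} (hX : PN X) (hY : PN Y) : PN fun B => X B + Y B :=
  ⟨pb_add hX.1 hY.1, fun B hB => add_nonneg (hX.2 B hB) (hY.2 B hB)⟩

theorem pn_mul {X Y : ℕ → ℝ} (hX : PN X) (hY : PN Y) : PN fun B => X B * Y B :=
  ⟨pb_mul hX.1 hY.1 hY.2, fun B hB => mul_nonneg (hX.2 B hB) (hY.2 B hB)⟩

theorem pn_npow {X : ℕ → ℝ} (hX : PN X) (m : ℕ) : PN fun B => X B ^ m :=
  ⟨pb_npow hX.1 hX.2 m, fun B hB => pow_nonneg (hX.2 B hB) m⟩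

end Pool.Agent.H99.VX
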