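import Mathlib

/-! # [H99 VX PE] Quantities bounded by an explicit power of `B` -/

namespace Pool.Agent.H99.VX

/-- nonnegative and at most `B^k` for all `B ≥ 2` -/
def PE (k : ℕ) (X : ℕ → ℝ) : Prop := ∀ B : ℕ, 2 ≤ B → 0 ≤ X B ∧ X B ≤ (B : ℝ) ^ k

theorem pe_mono {k l : ℕ} {X : ℕ → ℝ} (h : PE k X) (hkl : k ≤ l) : PE l X := fun B hB =>
  ⟨(h B hB).1, (h B hB).2.trans (pow_le_pow_right₀ (by
    have : 1 ≤ B := by omega
    exact_mod_cast this) hkl)⟩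

theorem pe_const {k : ℕ} {c : ℝ} (h0 : 0 ≤ c) (hc : c ≤ 2 ^ k) : PE k fun _ => c := fun B hB =>
  ⟨h0, hc.trans (pow_le_pow_left₀ (by norm_num) (by exact_mod_cast hB) k)⟩

theorem pe_pow (κ : ℕ) : PE κ fun B => (B : ℝ) ^ κ := fun _ _ => ⟨by positivity, le_rfl⟩

theorem pe_id : PE 1 fun B => (B : ℝ) := fun _ _ => ⟨by positivity, by simp⟩

theorem pe_add {k l m : ℕ} {X Y : ℕ → ℝ} (hX : PE k X) (hY : PE l Y) (hk : k + 1 ≤ m) (hl : l + 1 ≤ m) :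
    PE m fun B => X B + Y B := by
  intro B hB
  obtain ⟨a1, a2⟩ := (pe_mono hX (by omega : k ≤ m - 1)) B hB
  obtain ⟨b1, b2⟩ := (pe_mono hY (by omega : l ≤ m - 1)) B hB
  refine ⟨add_nonneg a1 b1, ?_⟩
  have hB2 : (2 : ℝ) ≤ B := by exact_mod_cast hB
  have h3 : 0 ≤ (B : ℝ) ^ (m - 1) := by positivity
  have h4 : (B : ℝ) ^ m = (B : ℝ) ^ (m - 1) * B := by
    rw [← pow_succ]
    congr 1
    omega
  rw [h4]
  nlinarith

theorem pe_mul {k l m : ℕ} {X Y : ℕ → ℝ} (hX : PE k X) (hY : PE l Y) (hkl : k + l ≤ m) : PE m fun B => X B * Y B := by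
  refine pe_mono (k := k + l) ?_ hkl
  intro B hB
  obtain ⟨a1, a2⟩ := hX B hB
  obtain ⟨b1, b2⟩ := hY B hB
  refine ⟨mul_nonneg a1 b1, ?_⟩
  rw [pow_add]
  exact mul_le_mul a2 b2 b1 (by positivity)

theorem pe_npow {k m : ℕ} {X : ℕ → ℝ} (hX : PE k X) (i : ℕ) (hi : k * i ≤ m) : PE m fun B => X B ^ i := by
  refine pe_mono (k := k * i) ?_ hi
  intro B hB
  obtain ⟨a1, a2⟩ := hX B hB
  refine ⟨pow_nonneg a1 i, ?_⟩
  rw [pow_mul]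
  exact pow_le_pow_left₀ a1 a2 i

/-- `n ≤ 2^n` in `ℝ` -/
theorem n_le (n : ℕ) : (n : ℝ) ≤ 2 ^ n := by exact_mod_cast (Nat.lt_two_pow_self (n := n)).le

/-- `n + 1 ≤ 2^n` in `ℝ` -/
theorem n1_le (n : ℕ) : (n : ℝ) + 1 ≤ 2 ^ n := by exact_mod_cast Nat.lt_two_pow_self (n := n)

end Pool.Agent.H99.VX
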