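import Pool.Agent.H8.AA.Cls
import Pool.Agent.H99.VX.Pb
import Pool.Agent.H99.VX.Pe

/-! # [H99 VX GDR] The leading form has no double zero in `|t| ≤ 2`, polynomially in the coefficients

As `H88/TU/Gdx.lean`, for the larger range. -/

namespace Pool.Agent.H99.VX

open Finset Polynomial Pool.Agent.H8.AA

/-- shifted sum of the coefficients -/
private theorem shift_sum (g : ℤ[X]) {d N j : ℕ} (hg : g.natDegree ≤ d) (hj : j + d < N) (t : ℝ) :
    ∑ i : Fin N, t ^ (i : ℕ) * (((if (i : ℕ) ∈ Set.Icc j (j + d) then g.coeff (i - j) else 0 : ℤ)) : ℝ) =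
      t ^ j * aeval t g := by
  rw [Fin.sum_univ_eq_sum_range
    (fun i => t ^ i * (((if i ∈ Set.Icc j (j + d) then g.coeff (i - j) else 0 : ℤ)) : ℝ)) N]
  have h1 : ∑ i ∈ range N, t ^ i * (((if i ∈ Set.Icc j (j + d) then g.coeff (i - j) else 0 : ℤ)) : ℝ) =
      ∑ i ∈ Finset.Ico j (j + (d + 1)), t ^ i * ((g.coeff (i - j) : ℤ) : ℝ) := by
    symm
    have hsub : Finset.Ico j (j + (d + 1)) ⊆ range N := by
      intro i hi
      rw [Finset.mem_Ico] at hi
      rw [Finset.mem_range]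
      omega
    rw [← Finset.sum_subset hsub]
    · refine Finset.sum_congr rfl fun i hi => ?_
      rw [Finset.mem_Ico] at hi
      rw [if_pos (Set.mem_Icc.2 ⟨by omega, by omega⟩)]
    · intro i _ hi
      rw [Finset.mem_Ico] at hi
      rw [if_neg]
      · simp
      · rw [Set.mem_Icc]
        omega
  rw [h1, Finset.sum_Ico_eq_sum_range, Polynomial.aeval_eq_sum_range' (n := d + 1) (by omega),
    Finset.mul_sum]
  have h2 : j + (d + 1) - j = d + 1 := by omega
  rw [h2]
  refine Finset.sum_congr rfl fun i _ => ?_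
  have h3 : j + i - j = i := by omega
  rw [h3, pow_add, zsmul_eq_mul]
  ring

/-- lower bound for two polynomials with a resultant different from zero -/
private theorem low {f g : ℤ[X]} {m d : ℕ} (hf : f.natDegree ≤ m) (hg : g.natDegree ≤ d) (hN : 0 < m + d)
    {C : ℕ} (hC : 1 ≤ C) (hfC : ∀ j, |f.coeff j| ≤ (C : ℤ)) (hgC : ∀ j, |g.coeff j| ≤ (C : ℤ))
    (hR : f.resultant g m d ≠ 0) {t : ℝ} (ht : |t| ≤ 2) :
    1 ≤ (((m + d) * ((m + d).factorial * C ^ (m + d)) : ℕ) : ℝ) * (2 ^ (m + d) * max |aeval t f| |aeval t g|) := by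
  classical
  obtain ⟨M, hM⟩ : ∃ M : ℝ, M = 2 ^ (m + d) * max |aeval t f| |aeval t g| := ⟨_, rfl⟩
  rw [← hM]
  have hM00 : 0 ≤ max |aeval t f| |aeval t g| := le_trans (abs_nonneg _) (le_max_left _ _)
  have hM0 : 0 ≤ M := by
    rw [hM]
    positivity
  obtain ⟨S, hS⟩ : ∃ S, S = sylvester f g m d := ⟨_, rfl⟩
  have hSe : ∀ i j, |S i j| ≤ (C : ℤ) := by
    intro i j
    rw [hS]
    induction j using Fin.addCases with
    | left j =>
      simp only [sylvester, Matrix.of_apply, Fin.addCases_left]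
      split_ifs
      · exact hgC _
      · simp
    | right j =>
      simp only [sylvester, Matrix.of_apply, Fin.addCases_right]
      split_ifs
      · exact hfC _
      · simp
  have hadj : ∀ i j, |S.adjugate i j| ≤ ((m + d).factorial * C ^ (m + d) : ℕ) := by
    intro i j
    rw [Matrix.adjugate_apply]
    have h1 := Matrix.det_le (A := S.updateRow j (Pi.single i 1)) (abv := AbsoluteValue.abs) (x := (C : ℤ)) ?_
    · simpa using h1
    · intro a b
      rw [AbsoluteValue.abs_apply, Matrix.updateRow_apply]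
      split_ifs with h
      · rw [Pi.single_apply]
        split_ifs
        · simpa using hC
        · simp
      · exact hSe a b
  have hcol : ∀ j, |∑ i : Fin (m + d), t ^ (i : ℕ) * ((S i j : ℤ) : ℝ)| ≤ M := by
    intro j
    have hp : ∀ l : ℕ, l ≤ m + d → |t ^ l| ≤ 2 ^ (m + d) := by
      intro l hl
      rw [abs_pow]
      calc |t| ^ l ≤ 2 ^ l := pow_le_pow_left₀ (abs_nonneg _) ht l
        _ ≤ 2 ^ (m + d) := pow_le_pow_right₀ (by norm_num) hl
    rw [hS]
    induction j using Fin.addCases with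
    | left j =>
      simp only [sylvester, Matrix.of_apply, Fin.addCases_left]
      rw [shift_sum g hg (by omega) t, abs_mul]
      calc |t ^ (j : ℕ)| * |aeval t g| ≤ 2 ^ (m + d) * |aeval t g| :=
            mul_le_mul_of_nonneg_right (hp _ (by omega)) (abs_nonneg _)
        _ ≤ M := by
            rw [hM]
            exact mul_le_mul_of_nonneg_left (le_max_right _ _) (by positivity)
    | right j =>
      simp only [sylvester, Matrix.of_apply, Fin.addCases_right]
      rw [shift_sum f hf (by omega) t, abs_mul]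
      calc |t ^ (j : ℕ)| * |aeval t f| ≤ 2 ^ (m + d) * |aeval t f| :=
            mul_le_mul_of_nonneg_right (hp _ (by omega)) (abs_nonneg _)
        _ ≤ M := by
            rw [hM]
            exact mul_le_mul_of_nonneg_left (le_max_left _ _) (by positivity)
  have hdet : (S.det : ℝ) = ∑ j : Fin (m + d), (∑ i : Fin (m + d), t ^ (i : ℕ) * ((S i j : ℤ) : ℝ)) *
      ((S.adjugate j ⟨0, hN⟩ : ℤ) : ℝ) := by
    have h1 : ∀ i : Fin (m + d), ∑ j, S i j * S.adjugate j ⟨0, hN⟩ = if i = ⟨0, hN⟩ then S.det else 0 := by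
      intro i
      have h2 := congrFun (congrFun (Matrix.mul_adjugate S) i) ⟨0, hN⟩
      rw [Matrix.mul_apply] at h2
      rw [h2, Matrix.smul_apply, Matrix.one_apply]
      split_ifs <;> simp
    calc (S.det : ℝ) = ∑ i : Fin (m + d), t ^ (i : ℕ) * (((if i = ⟨0, hN⟩ then S.det else 0 : ℤ)) : ℝ) := by
          rw [Finset.sum_eq_single ⟨0, hN⟩]
          · simp
          · intro i _ hi
            rw [if_neg hi]
            simp
          · intro h
            exact absurd (Finset.mem_univ _) h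
      _ = ∑ i : Fin (m + d), t ^ (i : ℕ) * ∑ j, ((S i j : ℤ) : ℝ) * ((S.adjugate j ⟨0, hN⟩ : ℤ) : ℝ) := by
          refine Finset.sum_congr rfl fun i _ => ?_
          rw [← h1 i]
          push_cast
          rfl
      _ = ∑ j : Fin (m + d), (∑ i : Fin (m + d), t ^ (i : ℕ) * ((S i j : ℤ) : ℝ)) *
            ((S.adjugate j ⟨0, hN⟩ : ℤ) : ℝ) := by
          simp only [Finset.mul_sum, Finset.sum_mul]
          rw [Finset.sum_comm]
          refine Finset.sum_congr rfl fun j _ => Finset.sum_congr rfl fun i _ => ?_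
          ring
  have hd1 : (1 : ℝ) ≤ |(S.det : ℝ)| := by
    have h1 : S.det ≠ 0 := by
      rw [hS]
      exact hR
    have h2 : (1 : ℤ) ≤ |S.det| := Int.one_le_abs h1
    have h3 : ((1 : ℤ) : ℝ) ≤ ((|S.det| : ℤ) : ℝ) := by exact_mod_cast h2
    rw [Int.cast_abs] at h3
    simpa using h3
  calc (1 : ℝ) ≤ |(S.det : ℝ)| := hd1
    _ ≤ ∑ j : Fin (m + d), |(∑ i : Fin (m + d), t ^ (i : ℕ) * ((S i j : ℤ) : ℝ)) *
          ((S.adjugate j ⟨0, hN⟩ : ℤ) : ℝ)| := by
        rw [hdet]
        exact Finset.abs_sum_le_sum_abs _ _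
    _ ≤ ∑ j : Fin (m + d), M * (((m + d).factorial * C ^ (m + d) : ℕ) : ℝ) := by
        refine Finset.sum_le_sum fun j _ => ?_
        rw [abs_mul]
        refine mul_le_mul (hcol j) ?_ (abs_nonneg _) hM0
        have h1 := hadj j ⟨0, hN⟩
        have h2 : ((|S.adjugate j ⟨0, hN⟩| : ℤ) : ℝ) ≤ (((((m + d).factorial * C ^ (m + d) : ℕ)) : ℤ) : ℝ) := by
          exact_mod_cast h1
        rw [Int.cast_abs] at h2
        simpa using h2
    _ = (((m + d) * ((m + d).factorial * C ^ (m + d)) : ℕ) : ℝ) * M := by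
        rw [Finset.sum_const, Finset.card_univ, Fintype.card_fin, nsmul_eq_mul]
        push_cast
        ring

/-- `f` and `f'` are not both small on `|t| ≤ 2`, explicit -/
theorem gdre (n : ℕ) (hn : 2 ≤ n) : ∀ B : ℕ, 2 ≤ B → ∀ e : ℕ → ℕ → ℤ, Ir n e → (∀ a b, a + b = n → |e a b| ≤ (B : ℤ)) →
    ∀ t : ℝ, |t| ≤ 2 → 1 / (B : ℝ) ^ (10 * n ^ 2) < |aeval t (fm e n)| ∨
      1 / (B : ℝ) ^ (10 * n ^ 2) < |aeval t (derivative (fm e n))| := by
  obtain ⟨N, hN⟩ : ∃ N, N = n + (n - 1) := ⟨_, rfl⟩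
  have hc : ((N * (N.factorial * n ^ N) : ℕ) : ℝ) ≤ 2 ^ (N + (N * N + n * N)) := by
    have h1 : N ≤ 2 ^ N := Nat.lt_two_pow_self.le
    have h2 : N.factorial ≤ 2 ^ (N * N) :=
      calc N.factorial ≤ N ^ N := Nat.factorial_le_pow N
        _ ≤ (2 ^ N) ^ N := Nat.pow_le_pow_left h1 N
        _ = 2 ^ (N * N) := (pow_mul 2 N N).symm
    have h3 : n ^ N ≤ 2 ^ (n * N) :=
      calc n ^ N ≤ (2 ^ n) ^ N := Nat.pow_le_pow_left Nat.lt_two_pow_self.le N
        _ = 2 ^ (n * N) := (pow_mul 2 n N).symm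
    have h4 : N * (N.factorial * n ^ N) ≤ 2 ^ (N + (N * N + n * N)) := by
      rw [pow_add, pow_add]
      exact Nat.mul_le_mul h1 (Nat.mul_le_mul h2 h3)
    exact_mod_cast h4
  obtain ⟨κ, hκe⟩ : ∃ κ : ℕ, κ = 10 * n ^ 2 := ⟨_, rfl⟩
  have hkk : N + (N * N + n * N) + (N + N) + 1 ≤ κ := by
    obtain ⟨p, rfl⟩ : ∃ p, n = p + 2 := ⟨n - 2, by omega⟩
    have h5 : N = 2 * p + 3 := by omega
    rw [hκe, h5]
    nlinarith
  have hκ : PE κ fun B => ((N * (N.factorial * n ^ N) : ℕ) : ℝ) * ((B : ℝ) ^ N * 2 ^ N) + 1 :=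
    pe_add (pe_mul (pe_const (Nat.cast_nonneg _) hc) (pe_mul (pe_pow N) (pe_const (k := N) (by positivity) le_rfl) le_rfl) le_rfl)
      (pe_const (k := 0) (by norm_num) (by norm_num)) hkk (by omega)
  rw [← hκe]
  intro B hB e hI hb t ht
  have hκB := (hκ B hB).2
  have hdeg : (fm e n).natDegree = n := by
    refine le_antisymm (fm_deg e n) (le_natDegree_of_ne_zero ?_)
    rw [fm_coeff, if_pos le_rfl, Nat.sub_self]
    exact hI.1
  have hd : ((fm e n).map (Int.castRingHom ℚ)).natDegree = n := by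
    rw [natDegree_map_eq_of_injective (Int.castRingHom ℚ).injective_int, hdeg]
  have hi := hI.2
  have hco : IsCoprime ((fm e n).map (Int.castRingHom ℚ)) (derivative ((fm e n).map (Int.castRingHom ℚ))) :=
    hi.separable
  have hdd : (derivative ((fm e n).map (Int.castRingHom ℚ))).natDegree = n - 1 := by
    rw [natDegree_derivative, hd]
  have hR : (fm e n).resultant (derivative (fm e n)) n (n - 1) ≠ 0 := by
    have h1 := resultant_ne_zero _ _ hco
    rw [hd, hdd, derivative_map, resultant_map_map] at h1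
    intro h2
    rw [h2, map_zero] at h1
    exact h1 rfl
  have hfC : ∀ j, |(fm e n).coeff j| ≤ ((n * B : ℕ) : ℤ) := by
    intro j
    rw [fm_coeff]
    split_ifs with h
    · have h1 := hb (n - j) j (by omega)
      have h2 : (B : ℤ) ≤ ((n * B : ℕ) : ℤ) := by
        push_cast
        nlinarith
      omega
    · rw [abs_zero]
      positivity
  have hgC : ∀ j, |(derivative (fm e n)).coeff j| ≤ ((n * B : ℕ) : ℤ) := by
    intro j
    rw [coeff_derivative, fm_coeff]
    split_ifs with h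
    · have h1 := hb (n - (j + 1)) (j + 1) (by omega)
      rw [abs_mul]
      have h2 : |((j : ℤ) + 1)| ≤ (n : ℤ) := by
        rw [abs_of_nonneg (by positivity)]
        omega
      push_cast
      calc |e (n - (j + 1)) (j + 1)| * |(j : ℤ) + 1| ≤ (B : ℤ) * (n : ℤ) :=
            mul_le_mul (by omega) h2 (abs_nonneg _) (by positivity)
        _ = (n : ℤ) * (B : ℤ) := mul_comm _ _
    · rw [zero_mul, abs_zero]
      positivity
  have hle : (derivative (fm e n)).natDegree ≤ n - 1 := by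
    refine (natDegree_derivative_le _).trans ?_
    rw [hdeg]
  have h3 := low (fm_deg e n) hle (by omega) (C := n * B) (Nat.mul_pos (by omega) (by omega)) hfC hgC hR ht
  rw [← hN] at h3
  obtain ⟨M, hM⟩ : ∃ M : ℝ, M = max |aeval t (fm e n)| |aeval t (derivative (fm e n))| := ⟨_, rfl⟩
  rw [← hM] at h3
  have hM0 : 0 ≤ M := by
    rw [hM]
    exact le_trans (abs_nonneg _) (le_max_left _ _)
  have h4 : ((N * (N.factorial * (n * B) ^ N) : ℕ) : ℝ) * (2 ^ N * M) = ((N * (N.factorial * n ^ N) : ℕ) : ℝ) * ((B : ℝ) ^ N * 2 ^ N) * M := by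
    push_cast
    rw [mul_pow]
    ring
  rw [h4] at h3
  have hBκ : (0 : ℝ) < (B : ℝ) ^ κ := by
    have : (0 : ℝ) < B := by
      have : 0 < B := by omega
      exact_mod_cast this
    positivity
  have h5 : 1 / (B : ℝ) ^ κ < M := by
    rw [div_lt_iff₀ hBκ]
    have hMp : 0 < M := by
      rcases hM0.lt_or_eq with h | h
      · exact h
      · rw [← h, mul_zero] at h3
        linarith
    nlinarith
  rw [hM] at h5
  exact lt_max_iff.1 h5

/-- `f` and `f'` are not both small on `|t| ≤ 2` -/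
theorem gdr (n : ℕ) (hn : 2 ≤ n) : ∃ κ : ℕ, ∀ B : ℕ, 2 ≤ B → ∀ e : ℕ → ℕ → ℤ, Ir n e → (∀ a b, a + b = n → |e a b| ≤ (B : ℤ)) →
    ∀ t : ℝ, |t| ≤ 2 → 1 / (B : ℝ) ^ κ < |aeval t (fm e n)| ∨ 1 / (B : ℝ) ^ κ < |aeval t (derivative (fm e n))| :=
  ⟨10 * n ^ 2, gdre n hn⟩

end Pool.Agent.H99.VX
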