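import Pool.Agent.H42.AA.Half2
import Pool.Agent.H99.VX.Celx
import Pool.Agent.H99.VX.Gdr

/-! # [H99 VX SCLX] `scale5` with constants polynomial in the coefficients of the leading form -/

namespace Pool.Agent.H99.VX

open Polynomial Pool.Agent.H8.AA Pool.Agent.H42.AA Pool.Agent.H6.AB Pool.Agent.H99.UC

/-- the derivative in `t` at `u = 0` is Lipschitz -/
theorem der_lip (n : ℕ) {b : ℕ → ℕ → ℝ} {B : ℝ} (hB : 0 ≤ B) (hb : ∀ k ≤ n, ∀ j ≤ n, |b k j| ≤ B) {s t : ℝ}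
    (hs : |s| ≤ 2) (ht : |t| ≤ 2) : |Pht n b 0 s - Pht n b 0 t| ≤ 2 * (cD n * B) * |s - t| := by
  rcases eq_or_ne s t with rfl | hne
  · simp
  have h0 : |(0 : ℝ)| ≤ 1 := by simp
  have h1 := Ph_tay2 n hB hb h0 h0 hs ht
  have h2 := Ph_tay2 n hB hb h0 h0 ht hs
  have hpos : 0 < |s - t| := abs_pos.2 (sub_ne_zero.2 hne)
  have h3 : |Pht n b 0 s - Pht n b 0 t| * |s - t| ≤ 2 * (cD n * B) * |s - t| * |s - t| := by
    rw [← abs_mul, mul_assoc (2 * (cD n * B)), abs_mul_abs_self]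
    have e1 : (Pht n b 0 s - Pht n b 0 t) * (s - t) =
        (Ph n b 0 t - Ph n b 0 s - (Phu n b 0 s * (0 - 0) + Pht n b 0 s * (t - s))) +
        (Ph n b 0 s - Ph n b 0 t - (Phu n b 0 t * (0 - 0) + Pht n b 0 t * (s - t))) := by ring
    rw [e1]
    refine (abs_add_le _ _).trans ?_
    have e2 : 2 * (cD n * B) * ((s - t) * (s - t)) = cD n * B * ((0 - 0) ^ 2 + (t - s) ^ 2) +
        cD n * B * ((0 - 0) ^ 2 + (s - t) ^ 2) := by ring
    rw [e2]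
    exact add_le_add h1 h2
  exact le_of_mul_le_mul_right h3 hpos

/-- `cD` and `cM` as powers of `2` -/
theorem cD_le (n : ℕ) : cD n ≤ 2 ^ (5 * n + 2) := by
  have h1 := n1_le n
  have h0 : (0 : ℝ) ≤ n := Nat.cast_nonneg n
  have h2 : ((n : ℝ) + 1) ^ 2 ≤ (2 ^ n) ^ 2 := pow_le_pow_left₀ (by linarith) h1 2
  have h3 : 4 * (n : ℝ) ^ 2 + n + 1 ≤ 4 * (2 ^ n) ^ 2 := by nlinarith
  unfold cD
  calc ((n : ℝ) + 1) ^ 2 * 2 ^ n * (4 * (n : ℝ) ^ 2 + n + 1) ≤ (2 ^ n) ^ 2 * 2 ^ n * (4 * (2 ^ n) ^ 2) := by gcongr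
    _ = 2 ^ (5 * n + 2) := by
        ring

theorem cM_le (n : ℕ) : cM n ≤ 2 ^ (4 * n + 3) := by
  have h1 := n1_le n
  have h0 : (0 : ℝ) ≤ n := Nat.cast_nonneg n
  have h2 : ((n : ℝ) + 1) ^ 4 ≤ (2 ^ n) ^ 4 := pow_le_pow_left₀ (by linarith) h1 4
  have h3 : cM n ≤ 8 * ((n : ℝ) + 1) ^ 4 := by
    have h4 : 0 ≤ (n : ℝ) ^ 2 := by positivity
    have h5 : 0 ≤ (n : ℝ) ^ 3 := by positivity
    have h6 : 0 ≤ (n : ℝ) ^ 4 := by positivity
    unfold cM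
    nlinarith
  calc cM n ≤ 8 * ((n : ℝ) + 1) ^ 4 := h3
    _ ≤ 8 * (2 ^ n) ^ 4 := by linarith
    _ = 2 ^ (4 * n + 3) := by
        ring

theorem c4_le (n : ℕ) : 4 * (n : ℝ) ^ 2 + 2 ≤ 2 ^ (2 * n + 3) := by
  have h1 := n1_le n
  have h0 : (0 : ℝ) ≤ n := Nat.cast_nonneg n
  have h2 : ((n : ℝ) + 1) ^ 2 ≤ (2 ^ n) ^ 2 := pow_le_pow_left₀ (by linarith) h1 2
  calc 4 * (n : ℝ) ^ 2 + 2 ≤ 8 * (2 ^ n) ^ 2 := by nlinarith
    _ = 2 ^ (2 * n + 3) := by
        ring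

theorem c3_le (n : ℕ) : 3 * (n : ℝ) ≤ 2 ^ (n + 2) := by
  have h1 := n_le n
  rw [pow_add]
  have h2 : (0 : ℝ) ≤ 2 ^ n := by positivity
  linarith

/-- `scalex` with an explicit exponent -/
theorem scalexe (n : ℕ) (hn : 4 ≤ n) : ∀ B : ℕ, 2 ≤ B → ∀ (e : ℕ → ℕ → ℤ), Ir n e →
    (∀ a b, a + b = n → |e a b| ≤ (B : ℤ)) → ∀ (S H : ℕ), 1 ≤ S → 1 ≤ H → H ^ 2 ≤ S ^ n →
    (∀ a b, a + b < n → |e a b| ≤ ((S : ℤ) ^ (n - (a + b)))) → ∀ s : ℕ, (B : ℝ) ^ (40 * n ^ 2) * S ≤ (2 : ℝ) ^ s →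
    ∀ T : Finset (ℤ × ℤ), (∀ P ∈ T, |ev n e P.1 P.2| ≤ (H : ℤ) ∧ |P.2| ≤ |P.1| ∧ sc P.1 = s) →
    (T.card : ℝ) ≤ (B : ℝ) ^ (40 * n ^ 2) * (S : ℝ) ^ (5 / 6 : ℝ) := by
  classical
  have hκ := gdre n (by omega)
  obtain ⟨κ, hκe⟩ : ∃ κ : ℕ, κ = 10 * n ^ 2 := ⟨_, rfl⟩
  rw [← hκe] at hκ
  have hcM : 0 ≤ cM n := by
    unfold cM
    positivity
  have hcD := cD_pos n
  have hcD4 : 4 ≤ cD n := by
    unfold cD
    have h1 : (4 : ℝ) ≤ n := by exact_mod_cast hn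
    have h2 : (1 : ℝ) ≤ 2 ^ n := one_le_pow₀ (by norm_num)
    have h3 : (1 : ℝ) ≤ ((n : ℝ) + 1) ^ 2 := by nlinarith
    have h4 : (4 : ℝ) ≤ 4 * (n : ℝ) ^ 2 + n + 1 := by nlinarith
    have h5 : (1 : ℝ) ≤ ((n : ℝ) + 1) ^ 2 * 2 ^ n := by nlinarith
    nlinarith
  -- the constants
  have hcDe := cD_le n
  have hcMe := cM_le n
  obtain ⟨k, hke⟩ : ∃ k : ℕ, k = 40 * n ^ 2 := ⟨_, rfl⟩
  have hkk : 3 * κ + 19 * n + 28 ≤ k := by
    rw [hke, hκe]
    nlinarith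
  rw [← hke]
  have pQ : PE κ fun B => (B : ℝ) ^ κ := pe_pow κ
  have pD : PE (5 * n + 3) fun B => cD n * (B : ℝ) := pe_mul (pe_const hcD.le hcDe) pe_id (by omega)
  have pA : PE (κ + 1) fun B => (B : ℝ) * (B : ℝ) ^ κ := pe_mul pe_id pQ (by omega)
  have pC₁ : PE (3 * κ + 12 * n + 16) fun B => 4 * cM n * ((B : ℝ) * (B : ℝ) ^ κ) * (1 + 2 * cM n ^ 2 * ((B : ℝ) * (B : ℝ) ^ κ) ^ 2) := by
    have h1 : 4 * cM n ≤ 2 ^ (4 * n + 5) := by
      have e1 : (2 : ℝ) ^ (4 * n + 5) = 4 * 2 ^ (4 * n + 3) := by ring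
      rw [e1]
      linarith
    have h2 : 2 * cM n ^ 2 ≤ 2 ^ (8 * n + 7) := by
      have e1 : (2 : ℝ) ^ (8 * n + 7) = 2 * (2 ^ (4 * n + 3)) ^ 2 := by ring
      rw [e1]
      have := pow_le_pow_left₀ hcM hcMe 2
      linarith
    exact pe_mul (pe_mul (m := κ + 4 * n + 6) (pe_const (by positivity) h1) pA (by omega))
      (pe_add (m := 2 * κ + 8 * n + 10) (pe_const (k := 0) (by norm_num) (by norm_num))
        (pe_mul (m := 2 * κ + 8 * n + 9) (pe_const (by positivity) h2) (pe_npow (m := 2 * κ + 2) pA 2 (by omega)) (by omega))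
        (by omega) (by omega)) (by omega)
  have pK₁ : PE (3 * κ + 12 * n + 22) fun B => 6 * cM n * ((B : ℝ) * (B : ℝ) ^ κ) ^ 2 +
      16 * (4 * cM n * ((B : ℝ) * (B : ℝ) ^ κ) * (1 + 2 * cM n ^ 2 * ((B : ℝ) * (B : ℝ) ^ κ) ^ 2)) + 1 := by
    have h1 : 6 * cM n ≤ 2 ^ (4 * n + 6) := by
      have e1 : (2 : ℝ) ^ (4 * n + 6) = 8 * 2 ^ (4 * n + 3) := by ring
      rw [e1]
      linarith
    exact pe_add (pe_add (m := 3 * κ + 12 * n + 21)
      (pe_mul (m := 2 * κ + 4 * n + 8) (pe_const (by positivity) h1) (pe_npow (m := 2 * κ + 2) pA 2 (by omega)) (by omega))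
      (pe_mul (m := 3 * κ + 12 * n + 20) (pe_const (k := 4) (by norm_num) (by norm_num)) pC₁ (by omega)) (by omega) (by omega))
      (pe_const (k := 0) (by norm_num) (by norm_num)) (by omega) (by omega)
  have pCb : PE (3 * κ + 15 * n + 16) fun B => 4 * (B : ℝ) ^ κ * (cD n * (B : ℝ) * (1 + (4 * (B : ℝ) ^ κ * (cD n * (B : ℝ))) ^ 2)) :=
    pe_mul (pe_mul (m := κ + 2) (pe_const (k := 2) (by norm_num) (by norm_num)) pQ (by omega))
      (pe_mul (m := 2 * κ + 15 * n + 14) pD (pe_add (m := 2 * κ + 10 * n + 11) (pe_const (k := 0) (by norm_num) (by norm_num))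
        (pe_npow (m := 2 * κ + 10 * n + 10) (pe_mul (m := κ + 5 * n + 5)
          (pe_mul (m := κ + 2) (pe_const (k := 2) (by norm_num) (by norm_num)) pQ (by omega)) pD (by omega)) 2 (by omega))
        (by omega) (by omega)) (by omega)) (by omega)
  have h4n : 4 * (n : ℝ) ^ 2 + 1 ≤ 2 ^ (2 * n + 3) := by
    have := c4_le n
    linarith
  have hk₁ : PE k fun B => (n : ℝ) * (2 * (2 * (6 * cM n * ((B : ℝ) * (B : ℝ) ^ κ) ^ 2 +
      16 * (4 * cM n * ((B : ℝ) * (B : ℝ) ^ κ) * (1 + 2 * cM n ^ 2 * ((B : ℝ) * (B : ℝ) ^ κ) ^ 2)) + 1 + 2) +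
      (4 * (n : ℝ) ^ 2 + 1) * (8 * (4 * (B : ℝ) ^ κ * (cD n * (B : ℝ) * (1 + (4 * (B : ℝ) ^ κ * (cD n * (B : ℝ))) ^ 2))) +
        16 * (B : ℝ) ^ κ + 1) * (3 * n))) :=
    pe_mul (pe_const (k := n) (Nat.cast_nonneg n) (n_le n)) (pe_mul (m := 3 * κ + 18 * n + 28) (pe_const (k := 1) (by norm_num) (by norm_num))
      (pe_add (m := 3 * κ + 18 * n + 27) (pe_mul (m := 3 * κ + 12 * n + 24) (pe_const (k := 1) (by norm_num) (by norm_num))
        (pe_add (m := 3 * κ + 12 * n + 23) pK₁ (pe_const (k := 1) (by norm_num) (by norm_num)) (by omega) (by omega)) (by omega))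
        (pe_mul (m := 3 * κ + 18 * n + 26) (pe_mul (m := 3 * κ + 17 * n + 24) (pe_const (by positivity) h4n)
          (pe_add (m := 3 * κ + 15 * n + 21) (pe_add (m := 3 * κ + 15 * n + 20)
            (pe_mul (m := 3 * κ + 15 * n + 19) (pe_const (k := 3) (by norm_num) (by norm_num)) pCb (by omega))
            (pe_mul (m := κ + 4) (pe_const (k := 4) (by norm_num) (by norm_num)) pQ (by omega)) (by omega) (by omega))
            (pe_const (k := 0) (by norm_num) (by norm_num)) (by omega) (by omega)) (by omega))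
          (pe_const (by positivity) (c3_le n)) (by omega)) (by omega) (by omega)) (by omega)) (by omega)
  have hk₂ : PE k fun B => 6 * cM n * ((B : ℝ) * (B : ℝ) ^ κ) ^ 2 +
      16 * (4 * cM n * ((B : ℝ) * (B : ℝ) ^ κ) * (1 + 2 * cM n ^ 2 * ((B : ℝ) * (B : ℝ) ^ κ) ^ 2)) + 1 +
      128 * (cD n * (B : ℝ) * (B : ℝ) ^ κ) ^ 2 + (64 * (B : ℝ) ^ κ + 1) +
      (16 * (cD n * (B : ℝ)) * ((cD n * (B : ℝ) + 1) * ((B : ℝ) ^ κ) ^ 2) + 1) :=
    pe_add (pe_add (m := 3 * κ + 12 * n + 24) (pe_add (m := 3 * κ + 12 * n + 23) pK₁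
      (pe_mul (m := 2 * κ + 10 * n + 13) (pe_const (k := 7) (by norm_num) (by norm_num))
        (pe_npow (m := 2 * κ + 10 * n + 6) (pe_mul (m := κ + 5 * n + 3) pD pQ (by omega)) 2 (by omega)) (by omega)) (by omega) (by omega))
      (pe_add (m := κ + 7) (pe_mul (m := κ + 6) (pe_const (k := 6) (by norm_num) (by norm_num)) pQ (by omega))
        (pe_const (k := 0) (by norm_num) (by norm_num)) (by omega) (by omega)) (by omega) (by omega))
      (pe_add (m := 2 * κ + 10 * n + 12) (pe_mul (m := 2 * κ + 10 * n + 11)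
        (pe_mul (m := 5 * n + 7) (pe_const (k := 4) (by norm_num) (by norm_num)) pD (by omega))
        (pe_mul (m := 2 * κ + 5 * n + 4) (pe_add (m := 5 * n + 4) pD (pe_const (k := 0) (by norm_num) (by norm_num)) (by omega) (by omega))
          (pe_npow (m := 2 * κ) pQ 2 (by omega)) (by omega)) (by omega))
        (pe_const (k := 0) (by norm_num) (by norm_num)) (by omega) (by omega)) (by omega) (by omega)
  intro B hB e hI hbn S H hS hH hHS hbl s hs T hT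
  have hB2 : (2 : ℝ) ≤ B := by exact_mod_cast hB
  have hB1 : (1 : ℝ) ≤ B := by linarith
  have hB0 : (0 : ℝ) ≤ B := by linarith
  have hBp : (0 : ℝ) < B := by linarith
  have hk₁B := (hk₁ B hB).2
  have hk₂B := (hk₂ B hB).2
  simp only at hk₁B hk₂B
  have hK₁0 := (pK₁ B hB).1
  have hCb0 := (pCb B hB).1
  simp only at hK₁0 hCb0
  obtain ⟨Q, hQ⟩ : ∃ Q : ℝ, Q = (B : ℝ) ^ κ := ⟨_, rfl⟩
  have hgd := hκ B hB e hI hbn
  rw [← hQ] at hk₁B hk₂B hK₁0 hCb0 hgd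
  have hQ1 : 1 ≤ Q := by
    rw [hQ]
    exact one_le_pow₀ hB1
  have hQ0 : 0 < Q := by linarith
  obtain ⟨D, hD⟩ : ∃ D : ℝ, D = cD n * B := ⟨_, rfl⟩
  rw [← hD] at hk₁B hk₂B hCb0
  have hD8 : 8 ≤ D := by
    rw [hD]
    nlinarith
  have hD0 : 0 < D := by linarith
  obtain ⟨K₁, hK₁⟩ : ∃ K₁ : ℝ, K₁ = 6 * cM n * ((B : ℝ) * Q) ^ 2 +
      16 * (4 * cM n * ((B : ℝ) * Q) * (1 + 2 * cM n ^ 2 * ((B : ℝ) * Q) ^ 2)) + 1 := ⟨_, rfl⟩
  rw [← hK₁] at hk₁B hk₂B hK₁0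
  obtain ⟨Cb, hCb⟩ : ∃ Cb : ℝ, Cb = 4 * Q * (D * (1 + (4 * Q * D) ^ 2)) := ⟨_, rfl⟩
  rw [← hCb] at hk₁B hCb0
  obtain ⟨c₀, hc₀e⟩ : ∃ c₀ : ℝ, c₀ = 1 / Q := ⟨_, rfl⟩
  rw [← hc₀e] at hgd
  have hc₀ : 0 < c₀ := by
    rw [hc₀e]
    positivity
  have hc₀1 : c₀ ≤ 1 := by
    rw [hc₀e, div_le_one hQ0]
    exact hQ1
  have hcQ : c₀ * Q = 1 := by
    rw [hc₀e]
    field_simp
  obtain ⟨θ, hθe⟩ : ∃ θ : ℝ, θ = c₀ / (8 * D) := ⟨_, rfl⟩
  have hθ : 0 < θ := by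
    rw [hθe]
    positivity
  have hDθ : D * θ = c₀ / 8 := by
    rw [hθe]
    field_simp
  have hθ1 : θ ≤ 1 / 2 := by
    rw [hθe, div_le_iff₀ (by positivity)]
    linarith
  obtain ⟨η, hηe⟩ : ∃ η : ℝ, η = c₀ ^ 2 / (64 * D ^ 2) := ⟨_, rfl⟩
  have hη0 : 0 < η := by
    rw [hηe]
    positivity
  have hη1 : η ≤ 1 := by
    rw [hηe, div_le_one (by positivity)]
    nlinarith
  have hηD : cD n * B * η ≤ c₀ / 2 * θ / 4 := by
    rw [← hD, hηe, hθe]
    refine le_of_eq ?_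
    field_simp
    ring
  have e2c : 2 / (c₀ / 2) = 4 * Q := by
    rw [hc₀e]
    field_simp
    ring
  have hcell := cellk n hn B c₀ (B * Q) _ K₁ (c₀ / 2) θ η Cb hB1 hc₀ (by linarith) (by rw [hc₀e]; field_simp) rfl hK₁
    (by positivity) hθ (by linarith) hη0 hη1 hηD (by rw [← hD, e2c]; exact hCb)
  have e1 : 2 / η = 128 * (D * Q) ^ 2 := by
    rw [hηe, hc₀e]
    field_simp
    ring
  have e2 : 32 / (c₀ / 2) = 64 * Q := by
    rw [hc₀e]
    field_simp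
    ring
  have e3 : 8 / (c₀ / 2) = 16 * Q := by
    rw [hc₀e]
    field_simp
    ring
  rw [e1, e2, e3] at hcell
  obtain ⟨C, hC⟩ : ∃ C : ℝ, C = 2 * (K₁ + 2) + (4 * n ^ 2 + 1) * (8 * Cb + 16 * Q + 1) * (3 * n) := ⟨_, rfl⟩
  rw [← hC] at hcell hk₁B
  have hC0 : 0 ≤ C := by
    rw [hC]
    positivity
  -- the form
  have hdeg : (fm e n).natDegree = n := by
    refine le_antisymm (fm_deg e n) (le_natDegree_of_ne_zero ?_)
    rw [fm_coeff, if_pos le_rfl, Nat.sub_self]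
    exact hI.1
  obtain ⟨Rt, hRt⟩ : ∃ Rt : Finset ℝ, Rt = ((fm e n).map (Int.castRingHom ℝ)).roots.toFinset := ⟨_, rfl⟩
  have hmap0 : (fm e n).map (Int.castRingHom ℝ) ≠ 0 := by
    rw [Polynomial.map_ne_zero_iff Int.cast_injective]
    rintro h0
    rw [h0, natDegree_zero] at hdeg
    omega
  have hmem : ∀ r : ℝ, aeval r (fm e n) = 0 ↔ r ∈ Rt := by
    intro r
    rw [hRt, Multiset.mem_toFinset, mem_roots hmap0, IsRoot.def, eval_map, aeval_def]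
    rfl
  have hRc : Rt.card ≤ n := by
    rw [hRt]
    exact (Multiset.toFinset_card_le _).trans ((card_roots' _).trans (natDegree_map_le.trans hdeg.le))
  obtain ⟨A, hA⟩ : ∃ A : ℝ, A = D + 1 := ⟨_, rfl⟩
  have hA0 : 0 < A := by
    rw [hA]
    positivity
  obtain ⟨X, hX⟩ : ∃ X : ℝ, X = (2 : ℝ) ^ s := ⟨_, rfl⟩
  rw [← hX] at hs
  have hS1 : (1 : ℝ) ≤ S := by exact_mod_cast hS
  have hS0 : (0 : ℝ) < S := by linarith
  have hs' : (K₁ + 128 * (D * Q) ^ 2 + (64 * Q + 1) + (16 * D * ((D + 1) * Q ^ 2) + 1)) * S ≤ X :=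
    (mul_le_mul_of_nonneg_right hk₂B hS0.le).trans hs
  rw [← hA] at hs'
  have q1 : 0 ≤ 128 * (D * Q) ^ 2 := by positivity
  have q2 : 0 ≤ 16 * D * (A * Q ^ 2) := by positivity
  have hKX : (K₁ + 128 * (D * Q) ^ 2 + 64 * Q + 1) * S ≤ X := by
    refine le_trans ?_ hs'
    apply mul_le_mul_of_nonneg_right _ hS0.le
    linarith
  have h2SX : 2 * (S : ℝ) ≤ X := by
    refine le_trans ?_ hs'
    apply mul_le_mul_of_nonneg_right _ hS0.le
    linarith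
  have hSX : (S : ℝ) ≤ X := by linarith
  have hX1 : 1 ≤ X := hS1.trans hSX
  have hX0 : 0 < X := by linarith
  have hq0 : 0 < (S : ℝ) / X := by positivity
  have hq1 : (S : ℝ) / X ≤ 1 := by
    rw [div_le_one hX0]
    exact hSX
  have hqA : A * ((S : ℝ) / X) < c₀ / 2 * θ := by
    have h1 : (16 * D * (A * Q ^ 2) + 1) * S ≤ X := by
      refine le_trans ?_ hs'
      apply mul_le_mul_of_nonneg_right _ hS0.le
      linarith
    rw [← mul_div_assoc, div_lt_iff₀ hX0]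
    have h2 : c₀ / 2 * θ * (16 * D * (A * Q ^ 2)) = A := by
      calc c₀ / 2 * θ * (16 * D * (A * Q ^ 2)) = 8 * c₀ * (D * θ) * A * Q ^ 2 := by ring
        _ = (c₀ * Q) ^ 2 * A := by
            rw [hDθ]
            ring
        _ = A := by rw [hcQ]; ring
    have h3 : 0 < c₀ / 2 * θ := by positivity
    have h4 := mul_le_mul_of_nonneg_left h1 h3.le
    have h5 : c₀ / 2 * θ * ((16 * D * (A * Q ^ 2) + 1) * S) = A * S + c₀ / 2 * θ * S := by
      rw [← mul_assoc, mul_add, h2]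
      ring
    have h6 : 0 < c₀ / 2 * θ * S := by positivity
    linarith
  have hb' : ∀ a b, a + b ≤ n → |(e a b : ℝ)| ≤ (B : ℝ) * (S : ℝ) ^ (n - (a + b)) := by
    intro a b hab
    rcases hab.lt_or_eq with h | h
    · have h1 : |(e a b : ℝ)| ≤ (S : ℝ) ^ (n - (a + b)) := by exact_mod_cast hbl a b h
      refine h1.trans (le_mul_of_one_le_left (by positivity) hB1)
    · have h1 : |(e a b : ℝ)| ≤ B := by exact_mod_cast hbn a b h
      rw [h, Nat.sub_self, pow_zero, mul_one]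
      exact h1
  have hbb := bs5_le n e hS0 hB0 hb'
  have hG : Gd n c₀ e := fun t ht => hgd t (ht.trans (by norm_num))
  -- near a point where the derivative is large
  have hloc : ∀ t₀ : ℝ, |t₀| + θ ≤ 2 → c₀ < |aeval t₀ (derivative (fm e n))| → ∀ t, |t - t₀| ≤ θ →
      c₀ / 2 ≤ |aeval t (derivative (fm e n))| := by
    intro t₀ h1 h2 t h3
    have h4 : |t| ≤ 2 := by
      have := abs_add_le (t - t₀) t₀
      rw [sub_add_cancel] at this
      linarith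
    have h5 : |t₀| ≤ 2 := by linarith
    have h6 := der_lip n hB0 hbb h5 h4
    rw [Pht5_zero, Pht5_zero, ← hD] at h6
    have h7 : |t₀ - t| ≤ θ := by
      rw [abs_sub_comm]
      exact h3
    have h8 : 2 * D * |t₀ - t| ≤ c₀ / 4 := by
      calc 2 * D * |t₀ - t| ≤ 2 * D * θ := mul_le_mul_of_nonneg_left h7 (by positivity)
        _ = 2 * (D * θ) := by ring
        _ = c₀ / 4 := by rw [hDθ]; ring
    have h9 : |aeval t₀ (derivative (fm e n))| ≤ |aeval t (derivative (fm e n))| +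
        |aeval t₀ (derivative (fm e n)) - aeval t (derivative (fm e n))| := by
      have := abs_add_le (aeval t (derivative (fm e n))) (aeval t₀ (derivative (fm e n)) - aeval t (derivative (fm e n)))
      rwa [add_sub_cancel] at this
    linarith
  have hnear : ∀ t₀ : ℝ, |t₀| ≤ 1 → |aeval t₀ (fm e n)| < c₀ / 2 * θ → ∃ r : ℝ, aeval r (fm e n) = 0 ∧ |t₀ - r| ≤ θ := by
    intro t₀ h1 h2
    have h3 : c₀ < |aeval t₀ (derivative (fm e n))| := by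
      rcases hgd t₀ (by linarith) with h | h
      · exfalso
        have : c₀ / 2 * θ ≤ c₀ := by nlinarith
        linarith
      · exact h
    obtain ⟨r, hr, hr'⟩ := root_any (fun t => aeval t (fm e n) - aeval t₀ (fm e n)) (fun t => aeval t (derivative (fm e n)))
      (fun t => aeval t (fm e n)) t₀ (c₀ / 2) θ |aeval t₀ (fm e n)| (by positivity) hθ
      (fun t => ((fm e n).hasDerivAt_aeval t).sub_const _) (sub_self _) (hloc t₀ (by linarith) h3) (fm e n).continuous_aeval h2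
      (fun t _ => by
        refine le_of_eq ?_
        congr 1
        ring)
    exact ⟨r, hr', by rw [abs_sub_comm]; exact hr⟩
  obtain ⟨m, hm⟩ : ∃ m, n = m + 2 := ⟨n - 2, by omega⟩
  have hHm : (H : ℝ) ≤ (S : ℝ) ^ m := by
    have h1 : H ^ 2 ≤ (S ^ m) ^ 2 := by
      rw [← pow_mul]
      refine hHS.trans (Nat.pow_le_pow_right hS (by omega))
    have h2 : H ≤ S ^ m := by
      by_contra hcon
      push Not at hcon
      have := Nat.pow_lt_pow_left hcon (by norm_num : 2 ≠ 0)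
      omega
    exact_mod_cast h2
  -- facts on a point
  have hpt : ∀ P ∈ T, P.1 ≠ 0 ∧ X ≤ |(P.1 : ℝ)| ∧ |(P.1 : ℝ)| ≤ 2 * X ∧ |(P.2 : ℝ) / P.1| ≤ 1 ∧
      ∃ r ∈ Rt, |(P.2 : ℝ) / P.1 - r| ≤ θ := by
    intro P hP
    obtain ⟨p1, p2, p3⟩ := hT P hP
    have hx2 := lt_sc P.1
    have hx0 : P.1 ≠ 0 := by
      intro h0
      have h1 : |P.2| ≤ 0 := by rw [h0, abs_zero] at p2; exact p2
      have h2 : sc P.1 = 0 := by
        rw [h0]
        simp [sc]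
      rw [← p3, h2, pow_zero] at hX
      linarith
    have hx1 := sc_le hx0
    rw [p3, ← hX] at hx1 hx2
    have hax : 0 < |(P.1 : ℝ)| := by linarith
    have ht : |(P.2 : ℝ) / P.1| ≤ 1 := by
      rw [abs_div, div_le_one hax]
      exact_mod_cast p2
    refine ⟨hx0, hx1, hx2.le, ht, ?_⟩
    have hux : |(S : ℝ) / P.1| ≤ S / X := by
      rw [abs_div, abs_of_pos hS0]
      exact div_le_div_of_nonneg_left hS0.le hX0 hx1
    have h1 := Ph_lipu n hB0 (bs5_le n e hS0 hB0 hb') (hux.trans hq1) (by simp : |(0 : ℝ)| ≤ 1) (ht.trans (by norm_num : (1 : ℝ) ≤ 2))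
    rw [sub_zero, Ph5_zero n e hS0.ne'] at h1
    have h2 : |Ph n (bs5 n e S) (S / P.1) ((P.2 : ℝ) / P.1)| ≤ S / X := by
      have h3 := ev_Ph5 n e hS0.ne' P.1 P.2 hx0
      have h4 : |(ev n e P.1 P.2 : ℝ)| ≤ H := by exact_mod_cast p1
      rw [h3, abs_mul, abs_pow] at h4
      have h5 : |Ph n (bs5 n e S) (S / P.1) ((P.2 : ℝ) / P.1)| ≤ H / |(P.1 : ℝ)| ^ n := by
        rw [le_div_iff₀ (by positivity)]
        linarith
      refine h5.trans ?_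
      calc (H : ℝ) / |(P.1 : ℝ)| ^ n ≤ (S : ℝ) ^ m / X ^ n := by gcongr
        _ = ((S : ℝ) / X) ^ m * (1 / X ^ 2) := by
            rw [hm, div_pow, pow_add]
            field_simp
        _ ≤ ((S : ℝ) / X) ^ 1 * 1 := by
            refine mul_le_mul (pow_le_pow_of_le_one hq0.le hq1 (by omega)) ?_ (by positivity) (by positivity)
            rw [div_le_one (by positivity)]
            exact one_le_pow₀ hX1
        _ = S / X := by rw [pow_one, mul_one]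
    rw [← hD] at h1
    have h3 : |aeval ((P.2 : ℝ) / P.1) (fm e n)| ≤ A * (S / X) := by
      have h4 : D * |(S : ℝ) / P.1| ≤ D * (S / X) :=
        mul_le_mul_of_nonneg_left hux hD0.le
      have h5 : |aeval ((P.2 : ℝ) / P.1) (fm e n)| ≤ |Ph n (bs5 n e S) (S / P.1) ((P.2 : ℝ) / P.1)| +
          |Ph n (bs5 n e S) (S / P.1) ((P.2 : ℝ) / P.1) - aeval ((P.2 : ℝ) / P.1) (fm e n)| := by
        have := abs_sub (Ph n (bs5 n e S) (S / P.1) ((P.2 : ℝ) / P.1))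
          (Ph n (bs5 n e S) (S / P.1) ((P.2 : ℝ) / P.1) - aeval ((P.2 : ℝ) / P.1) (fm e n))
        rwa [sub_sub_cancel] at this
      rw [hA, add_mul, one_mul]
      linarith
    obtain ⟨r, hr, hr'⟩ := hnear _ ht (h3.trans_lt hqA)
    exact ⟨r, (hmem r).1 hr, hr'⟩
  -- one root, one sign
  have hcs : ∀ r ∈ Rt, ∀ σ : Bool, ((T.filter fun P => |(P.2 : ℝ) / P.1 - r| ≤ θ ∧ decide (0 < P.1) = σ).card : ℝ) ≤
      C * (S : ℝ) ^ (5 / 6 : ℝ) := by
    intro r hr σ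
    by_cases hne : (T.filter fun P => |(P.2 : ℝ) / P.1 - r| ≤ θ ∧ decide (0 < P.1) = σ).Nonempty
    · obtain ⟨P₀, hP₀⟩ := hne
      rw [Finset.mem_filter] at hP₀
      have hr2 : |r| + θ ≤ 2 := by
        obtain ⟨_, _, _, q4, _⟩ := hpt P₀ hP₀.1
        have h1 : |r| ≤ |(P₀.2 : ℝ) / P₀.1| + |(P₀.2 : ℝ) / P₀.1 - r| := by
          have := abs_sub ((P₀.2 : ℝ) / P₀.1) ((P₀.2 : ℝ) / P₀.1 - r)
          rwa [sub_sub_cancel] at this
        linarith [hP₀.2.1]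
      have hroot : aeval r (fm e n) = 0 := (hmem r).2 hr
      have hder : ∀ t, |t - r| ≤ θ → c₀ / 2 ≤ |aeval t (derivative (fm e n))| := by
        refine hloc r hr2 ?_
        rcases hgd r (by linarith) with h | h
        · exfalso
          rw [hroot, abs_zero] at h
          linarith
        · exact h
      cases σ with
      | true =>
        refine hcell e S H hS hH hHS hb' hI hG r hroot hr2 hder X X (2 * X) hKX (by linarith) (by linarith) (Or.inl hX0) ?_ _ ?_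
        · intro x hx
          rw [abs_of_pos (by linarith [hx.1])]
          exact hx
        · intro P hP
          rw [Finset.mem_filter] at hP
          obtain ⟨hP1, hP2, hP3⟩ := hP
          obtain ⟨q1, q2, q3, _, _⟩ := hpt P hP1
          have hpos : 0 < P.1 := by simpa using hP3
          have hpos' : (0 : ℝ) < P.1 := by exact_mod_cast hpos
          rw [abs_of_pos hpos'] at q2 q3
          exact ⟨(hT P hP1).1, (hT P hP1).2.1, q2, q3, hP2⟩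
      | false =>
        refine hcell e S H hS hH hHS hb' hI hG r hroot hr2 hder X (-(2 * X)) (-X) hKX (by linarith) (by linarith) (Or.inr (by linarith)) ?_ _ ?_
        · intro x hx
          rw [abs_of_neg (by linarith [hx.2])]
          constructor <;> linarith [hx.1, hx.2]
        · intro P hP
          rw [Finset.mem_filter] at hP
          obtain ⟨hP1, hP2, hP3⟩ := hP
          obtain ⟨q1, q2, q3, _, _⟩ := hpt P hP1
          have hneg : P.1 < 0 := by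
            have : ¬ 0 < P.1 := by simpa using hP3
            omega
          have hneg' : (P.1 : ℝ) < 0 := by exact_mod_cast hneg
          rw [abs_of_neg hneg'] at q2 q3
          exact ⟨(hT P hP1).1, (hT P hP1).2.1, by linarith, by linarith, hP2⟩
    · rw [Finset.not_nonempty_iff_eq_empty.1 hne, Finset.card_empty]
      push_cast
      positivity
  have hsub : T ⊆ Rt.biUnion fun r => (Finset.univ : Finset Bool).biUnion fun σ =>
      T.filter fun P => |(P.2 : ℝ) / P.1 - r| ≤ θ ∧ decide (0 < P.1) = σ := by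
    intro P hP
    obtain ⟨_, _, _, _, r, hr, hr'⟩ := hpt P hP
    rw [Finset.mem_biUnion]
    refine ⟨r, hr, ?_⟩
    rw [Finset.mem_biUnion]
    exact ⟨decide (0 < P.1), Finset.mem_univ _, Finset.mem_filter.2 ⟨hP, hr', rfl⟩⟩
  have h1 : (T.card : ℝ) ≤ ∑ r ∈ Rt, ∑ σ : Bool, ((T.filter fun P => |(P.2 : ℝ) / P.1 - r| ≤ θ ∧ decide (0 < P.1) = σ).card : ℝ) := by
    have h2 := (Finset.card_le_card hsub).trans Finset.card_biUnion_le
    have h3 : T.card ≤ ∑ r ∈ Rt, ∑ σ : Bool, (T.filter fun P => |(P.2 : ℝ) / P.1 - r| ≤ θ ∧ decide (0 < P.1) = σ).card :=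
      h2.trans (Finset.sum_le_sum fun r _ => Finset.card_biUnion_le)
    exact_mod_cast h3
  have h2 : ∀ r ∈ Rt, ∑ σ : Bool, ((T.filter fun P => |(P.2 : ℝ) / P.1 - r| ≤ θ ∧ decide (0 < P.1) = σ).card : ℝ) ≤
      2 * (C * (S : ℝ) ^ (5 / 6 : ℝ)) := by
    intro r hr
    refine (Finset.sum_le_card_nsmul _ _ _ fun σ _ => hcs r hr σ).trans ?_
    simp
  have h3 : (T.card : ℝ) ≤ Rt.card * (2 * (C * (S : ℝ) ^ (5 / 6 : ℝ))) := by
    refine h1.trans ((Finset.sum_le_card_nsmul _ _ _ h2).trans ?_)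
    rw [nsmul_eq_mul]
  have h4 : (Rt.card : ℝ) ≤ n := by exact_mod_cast hRc
  have h5 : 0 ≤ 2 * (C * (S : ℝ) ^ (5 / 6 : ℝ)) := by positivity
  calc (T.card : ℝ) ≤ Rt.card * (2 * (C * (S : ℝ) ^ (5 / 6 : ℝ))) := h3
    _ ≤ n * (2 * (C * (S : ℝ) ^ (5 / 6 : ℝ))) := mul_le_mul_of_nonneg_right h4 h5
    _ = n * (2 * C) * (S : ℝ) ^ (5 / 6 : ℝ) := by ring
    _ ≤ (B : ℝ) ^ k * (S : ℝ) ^ (5 / 6 : ℝ) := mul_le_mul_of_nonneg_right hk₁B (by positivity)

theorem scalex (n : ℕ) (hn : 4 ≤ n) : ∃ k : ℕ, ∀ B : ℕ, 2 ≤ B → ∀ (e : ℕ → ℕ → ℤ), Ir n e →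
    (∀ a b, a + b = n → |e a b| ≤ (B : ℤ)) → ∀ (S H : ℕ), 1 ≤ S → 1 ≤ H → H ^ 2 ≤ S ^ n →
    (∀ a b, a + b < n → |e a b| ≤ ((S : ℤ) ^ (n - (a + b)))) → ∀ s : ℕ, (B : ℝ) ^ k * S ≤ (2 : ℝ) ^ s → ∀ T : Finset (ℤ × ℤ),
    (∀ P ∈ T, |ev n e P.1 P.2| ≤ (H : ℤ) ∧ |P.2| ≤ |P.1| ∧ sc P.1 = s) →
    (T.card : ℝ) ≤ (B : ℝ) ^ k * (S : ℝ) ^ (5 / 6 : ℝ) :=
  ⟨40 * n ^ 2, scalexe n hn⟩

end Pool.Agent.H99.VX
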